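import Pool.Agent.MP_635355_lc.Defs

-- part MP_635355_lc.Basic
section

/-!
Boundedness lemmas, clubs, and a game lemma.
-/

namespace Pool.Agent.MP_635355_lc

open Cardinal Ordinal Set

universe u v w

section Bounds

lemma aleph_two_eq : (ℵ_ 2 : Cardinal.{u}) = Order.succ (ℵ_ 1) := by
  rw [← aleph_add_one]
  norm_num

lemma lt_aleph_two_iff {c : Cardinal.{u}} : c < ℵ_ 2 ↔ c ≤ ℵ_ 1 := by
  rw [aleph_two_eq, Order.lt_succ_iff]

lemma omega_one_lt_omega_two : (ω_ 1 : Ordinal.{u}) < ω_ 2 := by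
  simp

lemma omega_one_pos : (0 : Ordinal.{u}) < ω_ 1 := omega_pos 1

lemma omega_two_pos : (0 : Ordinal.{u}) < ω_ 2 := omega_pos 2

lemma bdd_of_card_lt {o : Ordinal.{u}} {s : Set Ordinal.{u}}
    (hs : #s < (Ordinal.lift.{u + 1} o).cof) (h : ∀ a ∈ s, a < o) :
    ∃ β < o, ∀ a ∈ s, a ≤ β := by
  refine ⟨sSup s, sSup_lt_of_lt_cof hs h, fun a ha => ?_⟩
  exact le_csSup ⟨o, fun b hb => (h b hb).le⟩ ha

lemma succ_lt_omega {o a : Ordinal.{u}} (h : a < ω_ o) : a + 1 < ω_ o :=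
  (isSuccLimit_omega o).add_one_lt h

/-- A set of at most `ℵ_1` ordinals below `ω_2` is bounded below `ω_2`. -/
lemma bdd2 {s : Set Ordinal.{u}} (hs : #s ≤ ℵ_ 1) (h : ∀ a ∈ s, a < ω_ 2) :
    ∃ β < ω_ 2, ∀ a ∈ s, a < β := by
  have hcof : (Ordinal.lift.{u + 1} (ω_ 2 : Ordinal.{u})).cof = ℵ_ 2 := by
    have h2 : (2 : Ordinal.{u + 1}) = 1 + 1 := by norm_num
    rw [lift_omega, Ordinal.lift_ofNat, h2, cof_omega_add_one]
  obtain ⟨β, hβ, hb⟩ := bdd_of_card_lt (o := ω_ 2) (by rw [hcof, lt_aleph_two_iff]; exact hs) h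
  exact ⟨β + 1, succ_lt_omega hβ, fun a ha => (hb a ha).trans_lt (lt_add_one β)⟩

lemma card_le_of_countable {α : Type v} {s : Set α} (hs : s.Countable) : #s ≤ ℵ_ 1 :=
  ((countable_iff_lt_aleph_one s).1 hs).le

lemma bdd2c {s : Set Ordinal.{u}} (hs : s.Countable) (h : ∀ a ∈ s, a < ω_ 2) :
    ∃ β < ω_ 2, ∀ a ∈ s, a < β :=
  bdd2 (card_le_of_countable hs) h

/-- A countable set of countable ordinals is bounded below `ω_1`. -/
lemma bdd1 {s : Set Ordinal.{u}} (hs : s.Countable) (h : ∀ a ∈ s, a < ω_ 1) :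
    ∃ β < ω_ 1, ∀ a ∈ s, a < β := by
  have hcof : (Ordinal.lift.{u + 1} (ω_ 1 : Ordinal.{u})).cof = ℵ_ 1 := by
    rw [lift_omega, Ordinal.lift_one, cof_omega_one]
  obtain ⟨β, hβ, hb⟩ := bdd_of_card_lt (o := ω_ 1)
    (by rw [hcof, ← countable_iff_lt_aleph_one]; exact hs) h
  exact ⟨β + 1, succ_lt_omega hβ, fun a ha => (hb a ha).trans_lt (lt_add_one β)⟩

lemma countable_Iio_of_lt {ξ : Ordinal.{u}} (h : ξ < ω_ 1) : (Iio ξ).Countable := by
  rw [countable_iff_lt_aleph_one, Cardinal.mk_Iio_ordinal, lift_lt_aleph_one, ← lt_omega_iff_card_lt]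
  exact h

lemma mk_Iio_omega_one : #(Iio (ω_ 1 : Ordinal.{u})) = ℵ_ 1 := by
  simp

lemma bdd2f (f : Ordinal.{u} → Ordinal.{u}) (h : ∀ ξ < ω_ 1, f ξ < ω_ 2) :
    ∃ β < ω_ 2, ∀ ξ < ω_ 1, f ξ < β := by
  obtain ⟨β, hβ, hb⟩ := bdd2 (s := f '' Iio (ω_ 1))
    (mk_image_le.trans mk_Iio_omega_one.le) (by
      rintro _ ⟨ξ, hξ, rfl⟩
      exact h ξ hξ)
  exact ⟨β, hβ, fun ξ hξ => hb _ ⟨ξ, hξ, rfl⟩⟩

/-- A set of size at most `ℵ_1` injects in `ω_1`. -/
lemma exists_inj_omega_one {α : Type v} (s : Set α) (hs : #s ≤ ℵ_ 1) :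
    ∃ g : α → Ordinal.{u}, (∀ a, g a < ω_ 1) ∧ InjOn g s := by
  classical
  have : Cardinal.lift.{u + 1} #s ≤ Cardinal.lift.{v} #(Iio (ω_ 1 : Ordinal.{u})) := by
    rw [mk_Iio_omega_one]
    simpa using hs
  obtain ⟨e⟩ := Cardinal.lift_mk_le'.1 this
  refine ⟨fun a => if h : a ∈ s then (e ⟨a, h⟩ : Ordinal.{u}) else 0, fun a => ?_, ?_⟩
  · by_cases h : a ∈ s
    · simp only [dif_pos h]
      exact (e ⟨a, h⟩).2
    · simp only [dif_neg h]
      exact omega_one_pos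
  · intro a ha b hb hab
    simp only [dif_pos ha, dif_pos hb] at hab
    exact congrArg Subtype.val (e.injective (Subtype.ext hab))

lemma exists_ginj : ∃ g : Ordinal.{u} → Ordinal.{u} → Ordinal.{u}, (∀ a b, g a b < ω_ 1) ∧
    ∀ a < ω_ 2, InjOn (g a) (Iio a) := by
  have : ∀ a : Ordinal.{u}, ∃ g : Ordinal.{u} → Ordinal.{u}, (∀ b, g b < ω_ 1) ∧
      (a < ω_ 2 → InjOn g (Iio a)) := by
    intro a
    by_cases ha : a < ω_ 2
    · obtain ⟨g, h1, h2⟩ := exists_inj_omega_one (Iio a) (by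
        rw [Cardinal.mk_Iio_ordinal, lift_le_aleph_one, ← lt_aleph_two_iff, ← lt_omega_iff_card_lt]
        exact ha)
      exact ⟨g, h1, fun _ => h2⟩
    · exact ⟨fun _ => 0, fun _ => omega_one_pos, fun h => absurd h ha⟩
  choose g h1 h2 using this
  exact ⟨g, h1, h2⟩

/-- A subset of `ω_2` with countable initial parts is bounded. -/
lemma bdd_of_countable_initial {s : Set Ordinal.{u}} (h : ∀ a ∈ s, a < ω_ 2)
    (hc : ∀ β < ω_ 2, (s ∩ Iio β).Countable) : ∃ β < ω_ 2, ∀ a ∈ s, a < β := by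
  by_cases hs : s.Countable
  · exact bdd2c hs h
  · exfalso
    rw [countable_iff_lt_aleph_one, not_lt] at hs
    obtain ⟨t, hts, ht⟩ := Cardinal.le_mk_iff_exists_subset.1 hs
    obtain ⟨β, hβ, hb⟩ := bdd2 ht.le (fun a ha => h a (hts ha))
    have : t.Countable := (hc β hβ).mono fun a ha => mem_inter (hts ha) (hb a ha)
    rw [countable_iff_lt_aleph_one, ht] at this
    exact lt_irrefl _ this

end Bounds

section Clubs

variable {α : Type v} {A : Set α}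

lemma isClubIn_superset {z : Set α} (hz : z ⊆ A) (hzc : z.Countable) :
    IsClubIn A {x | x ⊆ A ∧ x.Countable ∧ z ⊆ x} := by
  refine ⟨fun x hx => ⟨hx.1, hx.2.1⟩, fun f _ hf => ⟨?_, ?_, ?_⟩, fun x hx hxc => ?_⟩
  · exact iUnion_subset fun n => (hf n).1
  · exact countable_iUnion fun n => (hf n).2.1
  · exact (hf 0).2.2.trans (subset_iUnion f 0)
  · exact ⟨x ∪ z, ⟨union_subset hx hz, hxc.union hzc, subset_union_right⟩, subset_union_left⟩

/-- Closure under a binary set-valued function. -/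
def Closed (Ψ : α → α → Set α) (x : Set α) : Prop := ∀ a ∈ x, ∀ b ∈ x, Ψ a b ⊆ x

lemma closed_iUnion {Ψ : α → α → Set α} {f : ℕ → Set α} (hf : Monotone f)
    (h : ∀ n, ∀ a ∈ f n, ∀ b ∈ f n, Ψ a b ⊆ f (n + 1)) : Closed Ψ (⋃ n, f n) := by
  intro a ha b hb
  obtain ⟨m, hm⟩ := mem_iUnion.1 ha
  obtain ⟨n, hn⟩ := mem_iUnion.1 hb
  exact (h (max m n) a (hf (le_max_left _ _) hm) b (hf (le_max_right _ _) hn)).trans
    (subset_iUnion f _)

lemma IsClubIn.inter_closed {C : Set (Set α)} (hC : IsClubIn A C) {Ψ : α → α → Set α}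
    (hΨ : ∀ a ∈ A, ∀ b ∈ A, Ψ a b ⊆ A ∧ (Ψ a b).Countable) :
    IsClubIn A {x ∈ C | Closed Ψ x} := by
  refine ⟨fun x hx => hC.1 x hx.1, fun f hf h => ⟨hC.2.1 f hf fun n => (h n).1, ?_⟩,
    fun x hx hxc => ?_⟩
  · exact closed_iUnion hf fun n a ha b hb => ((h n).2 a ha b hb).trans (hf (Nat.le_succ n))
  · have step : ∀ y : C, ∃ y' : C, y.1 ⊆ y'.1 ∧ ∀ a ∈ y.1, ∀ b ∈ y.1, Ψ a b ⊆ y'.1 := by
      rintro ⟨y, hy⟩
      obtain ⟨hyA, hyc⟩ := hC.1 y hy
      obtain ⟨y', hy', hsub⟩ := hC.2.2 (y ∪ ⋃ a ∈ y, ⋃ b ∈ y, Ψ a b)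
        (union_subset hyA (iUnion₂_subset fun a ha => iUnion₂_subset fun b hb =>
          (hΨ a (hyA ha) b (hyA hb)).1))
        (hyc.union (hyc.biUnion fun a ha => hyc.biUnion fun b hb =>
          (hΨ a (hyA ha) b (hyA hb)).2))
      refine ⟨⟨y', hy'⟩, subset_union_left.trans hsub, fun a ha b hb c hc => hsub ?_⟩
      exact Or.inr (mem_iUnion₂.2 ⟨a, ha, mem_iUnion₂.2 ⟨b, hb, hc⟩⟩)
    choose nx hnx1 hnx2 using step
    obtain ⟨y0, hy0, hxy0⟩ := hC.2.2 x hx hxc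
    let f : ℕ → C := fun n => nx^[n] ⟨y0, hy0⟩
    have hf : ∀ n, f (n + 1) = nx (f n) := fun n => Function.iterate_succ_apply' _ _ _
    have hmono : Monotone fun n => (f n).1 :=
      monotone_nat_of_le_succ fun n => by
        rw [hf]
        exact hnx1 _
    refine ⟨⋃ n, (f n).1, ⟨hC.2.1 _ hmono fun n => (f n).2, closed_iUnion hmono fun n => ?_⟩,
      hxy0.trans (subset_iUnion (fun n => (f n).1) 0)⟩
    rw [hf]
    exact hnx2 _

lemma isClubIn_univ : IsClubIn A {x | x ⊆ A ∧ x.Countable} :=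
  ⟨fun _ hx => hx, fun _ _ hf => ⟨iUnion_subset fun n => (hf n).1,
    countable_iUnion fun n => (hf n).2⟩, fun x hx hxc => ⟨x, ⟨hx, hxc⟩, subset_rfl⟩⟩

end Clubs

section Game

/-- Positions from which the first player wins with rank below a given ordinal. -/
inductive BadR {P : Type v} {M : Type w} (child : P → M → P → Prop) : Ordinal.{v} → P → Prop
  | mk (ρ : Ordinal.{v}) (y : P) (m : M) (r : P → Ordinal.{v})
      (hr : ∀ y', child y m y' → r y' < ρ)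
      (ih : ∀ y', child y m y' → BadR child (r y') y') : BadR child ρ y

lemma positional {P : Type v} {M : Type w} [Nonempty M] (child : P → M → P → Prop) :
    ∃ (G : Set P) (β : P → M) (rk : P → Ordinal.{v}),
      (∀ y ∈ G, ∀ m, ∃ y' ∈ G, child y m y') ∧
      (∀ y ∉ G, ∀ y', child y (β y) y' → y' ∉ G ∧ rk y' < rk y) := by
  classical
  let rk : P → Ordinal.{v} := fun y => sInf {ρ | BadR child ρ y}
  have key : ∀ y, ∃ m, (∃ ρ, BadR child ρ y) → ∀ y', child y m y' →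
      (∃ ρ, BadR child ρ y') ∧ rk y' < rk y := by
    intro y
    by_cases h : ∃ ρ, BadR child ρ y
    · have h1 : BadR child (rk y) y := csInf_mem h
      generalize hρ : rk y = ρ at h1
      cases h1 with
      | mk _ _ m r hr ih =>
        exact ⟨m, fun _ y' hy' => ⟨⟨_, ih y' hy'⟩,
          (csInf_le' (show r y' ∈ {ρ | BadR child ρ y'} from ih y' hy')).trans_lt (hr y' hy')⟩⟩
    · exact ⟨Classical.arbitrary M, fun h' => absurd h' h⟩
  choose β hβ using key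
  refine ⟨{y | ¬ ∃ ρ, BadR child ρ y}, β, rk, fun y hy m => ?_, fun y hy y' hy' => ?_⟩
  · by_contra hcon
    apply hy
    have : ∀ y', ∃ ρ, child y m y' → BadR child ρ y' := by
      intro y'
      by_cases hc : child y m y'
      · by_contra h2
        apply hcon
        refine ⟨y', fun ⟨ρ, hρ⟩ => h2 ⟨ρ, fun _ => hρ⟩, hc⟩
      · exact ⟨0, fun h => absurd h hc⟩
    choose r hr using this
    exact ⟨⨆ y', r y' + 1, BadR.mk _ _ m r
      (fun y' _ => (lt_add_one _).trans_le (Ordinal.le_iSup (fun y' => r y' + 1) y')) hr⟩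
  · have hy2 : ∃ ρ, BadR child ρ y := by simpa using hy
    obtain ⟨h1, h2⟩ := hβ y hy2 y' hy'
    exact ⟨by simpa using h1, h2⟩

/-- Inside every club of `[ω_2]^ω` there is a family with a common countable bound for the
countable ordinals in its members, in which one can always extend unboundedly. -/
lemma exists_good {C : Set (Set Ordinal.{u})} (hC : IsClubIn (Iio (ω_ 2)) C) :
    ∃ ξ < ω_ 1, ∃ G ⊆ C, G.Nonempty ∧ (∀ y ∈ G, ∀ a ∈ y, a < ω_ 1 → a < ξ) ∧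
      ∀ y ∈ G, ∀ β < ω_ 2, ∃ y' ∈ G, y ⊆ y' ∧ ∃ a ∈ y', β ≤ a := by
  have : Nonempty (Iio (ω_ 2 : Ordinal.{u})) := ⟨⟨0, omega_two_pos⟩⟩
  have h := fun ξ : Ordinal.{u} => positional (P := Set Ordinal.{u})
    (M := Iio (ω_ 2 : Ordinal.{u})) (fun y β y' =>
      y' ∈ C ∧ (∀ a ∈ y', a < ω_ 1 → a < ξ) ∧ y ⊆ y' ∧ ∃ a ∈ y', β.1 ≤ a)
  choose G β rk hG hβ using h
  have main : ∃ ξ < ω_ 1, ∅ ∈ G ξ := by
    by_contra hcon
    push Not at hcon
    have step : ∀ y : {y : Set Ordinal.{u} // y ⊆ Iio (ω_ 2) ∧ y.Countable},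
        ∃ y' : {y : Set Ordinal.{u} // y ⊆ Iio (ω_ 2) ∧ y.Countable},
          y'.1 ∈ C ∧ y.1 ⊆ y'.1 ∧ ∃ a ∈ y'.1, ∀ ξ < ω_ 1, (β ξ y.1).1 ≤ a := by
      rintro ⟨y, hy1, hy2⟩
      obtain ⟨b, hb, hbb⟩ := bdd2f (fun ξ => (β ξ y).1) (fun ξ _ => (β ξ y).2)
      obtain ⟨y', hy', hsub⟩ := hC.2.2 (insert b y) (insert_subset hb hy1) (hy2.insert b)
      exact ⟨⟨y', hC.1 y' hy'⟩, hy', (subset_insert b y).trans hsub, b, hsub (mem_insert b y),
        fun ξ hξ => (hbb ξ hξ).le⟩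
    choose nx hnx1 hnx2 hnx3 using step
    let f : ℕ → {y : Set Ordinal.{u} // y ⊆ Iio (ω_ 2) ∧ y.Countable} :=
      fun n => nx^[n] ⟨∅, empty_subset _, countable_empty⟩
    have hf : ∀ n, f (n + 1) = nx (f n) := fun n => Function.iterate_succ_apply' _ _ _
    obtain ⟨ξ, hξ, hξb⟩ := bdd1 (s := (⋃ n, (f n).1) ∩ Iio (ω_ 1))
      ((countable_iUnion fun n => (f n).2.2).mono inter_subset_left) (fun a ha => ha.2)
    have hch : ∀ n, (f (n + 1)).1 ∈ C ∧ (∀ a ∈ (f (n + 1)).1, a < ω_ 1 → a < ξ) ∧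
        (f n).1 ⊆ (f (n + 1)).1 ∧ ∃ a ∈ (f (n + 1)).1, (β ξ (f n).1).1 ≤ a := by
      intro n
      refine ⟨?_, fun a ha ha1 => hξb a ⟨mem_iUnion.2 ⟨n + 1, ha⟩, ha1⟩, ?_, ?_⟩
      · rw [hf]; exact hnx1 _
      · rw [hf]; exact hnx2 _
      · rw [hf]
        obtain ⟨a, ha, ha'⟩ := hnx3 (f n)
        exact ⟨a, ha, ha' ξ hξ⟩
    have hnot : ∀ n, (f n).1 ∉ G ξ := by
      intro n
      induction n with
      | zero => exact hcon ξ hξ
      | succ n ih => exact (hβ ξ _ ih _ (hch n)).1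
    have hdec : StrictAnti fun n => rk ξ (f n).1 :=
      strictAnti_nat_of_succ_lt fun n => (hβ ξ _ (hnot n) _ (hch n)).2
    exact (WellFounded.not_rel_apply_succ (r := (· < ·)) (fun n => rk ξ (f n).1)).elim
      fun n hn => hn (hdec (Nat.lt_succ_self n))
  obtain ⟨ξ, hξ, h0⟩ := main
  refine ⟨ξ, hξ, {y ∈ G ξ | y ∈ C ∧ ∀ a ∈ y, a < ω_ 1 → a < ξ}, fun y hy => hy.2.1, ?_,
    fun y hy => hy.2.2, fun y hy b hb => ?_⟩
  · obtain ⟨y', hy', h1, h2, -⟩ := hG ξ _ h0 ⟨0, omega_two_pos⟩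
    exact ⟨y', hy', h1, h2⟩
  · obtain ⟨y', hy', h1, h2, h3, h4⟩ := hG ξ _ hy.1 ⟨b, hb⟩
    exact ⟨y', ⟨hy', h1, h2⟩, h3, h4⟩

end Game

end Pool.Agent.MP_635355_lc

end

-- part MP_635355_lc.Kurepa
section

/-!
An abstract presentation of `ω_2`-trees and the lemma of Kurepa on trees with countable levels.
-/

namespace Pool.Agent.MP_635355_lc

open Cardinal Ordinal Set

universe u

/-- Heights, restriction maps and level injections of an `ω_2`-tree. -/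
structure TreeData (T : Type u) where
  ht : T → Ordinal.{u}
  res : T → Ordinal.{u} → T
  idx : T → Ordinal.{u}
  ht_res : ∀ t α, α ≤ ht t → ht (res t α) = α
  res_res : ∀ t α β, α ≤ β → β ≤ ht t → res (res t β) α = res t α
  res_ht : ∀ t, res t (ht t) = t
  idx_lt : ∀ t, idx t < ω_ 1
  idx_inj : ∀ s t, ht s = ht t → idx s = idx t → s = t
  level_nonempty : ∀ α < ω_ 2, ∃ t, ht t = α

namespace TreeData

variable {T : Type u} (D : TreeData T)

/-- There is a cofinal branch. -/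
def Branch : Prop :=
  ∃ b : Ordinal.{u} → T, (∀ α < ω_ 2, D.ht (b α) = α) ∧
    ∀ α β, α ≤ β → β < ω_ 2 → D.res (b β) α = b α

lemma res_self {t : T} {α : Ordinal.{u}} (h : D.ht t = α) : D.res t α = t := by
  rw [← h, D.res_ht]

/-- A normal subtree with countable levels has a cofinal branch. -/
lemma branch_of_normal (L : Set T) (hne : ∃ w ∈ L, D.ht w = 0)
    (hc : ∀ γ < ω_ 2, {w ∈ L | D.ht w = γ}.Countable)
    (hres : ∀ w ∈ L, ∀ γ ≤ D.ht w, D.res w γ ∈ L)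
    (hext : ∀ w ∈ L, ∀ δ < ω_ 2, D.ht w ≤ δ → ∃ w' ∈ L, D.ht w' = δ ∧ D.res w' (D.ht w) = w) :
    D.Branch := by
  classical
  -- the splitting levels
  let Sp : Set Ordinal.{u} := {γ | γ < ω_ 2 ∧ ∃ u ∈ L, ∃ v ∈ L, D.ht u = γ ∧ D.ht v = γ ∧ u ≠ v ∧
    ∀ γ' < γ, D.res u γ' = D.res v γ'}
  have hSp : ∀ α < ω_ 2, (Sp ∩ Iio α).Countable := by
    intro α hα
    have hc2 := (hc α hα).prod (hc α hα)
    refine (hc2.image fun p : T × T => sInf {γ | D.res p.1 γ ≠ D.res p.2 γ}).mono ?_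
    rintro γ ⟨⟨hγ, u, hu, v, hv, hu1, hv1, huv, hagree⟩, hγα⟩
    have hγα' : γ ≤ α := le_of_lt hγα
    obtain ⟨u', hu', hu'1, hu'2⟩ := hext u hu α hα (hu1 ▸ hγα')
    obtain ⟨v', hv', hv'1, hv'2⟩ := hext v hv α hα (hv1 ▸ hγα')
    rw [hu1] at hu'2
    rw [hv1] at hv'2
    refine ⟨(u', v'), ⟨⟨hu', hu'1⟩, ⟨hv', hv'1⟩⟩, ?_⟩
    apply IsLeast.csInf_eq
    constructor
    · change D.res u' γ ≠ D.res v' γ
      rw [hu'2, hv'2]
      exact huv
    · intro γ' hγ'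
      by_contra hlt
      rw [not_le] at hlt
      apply hγ'
      change D.res u' γ' = D.res v' γ'
      rw [← D.res_res u' γ' γ hlt.le (hu'1 ▸ hγα'), ← D.res_res v' γ' γ hlt.le (hv'1 ▸ hγα'),
        hu'2, hv'2]
      exact hagree γ' hlt
  obtain ⟨β, hβ, hβb⟩ := bdd_of_countable_initial (s := Sp) (fun a ha => ha.1) hSp
  obtain ⟨w0, hw0, hw00⟩ := hne
  obtain ⟨w, hw, hwβ, -⟩ := hext w0 hw0 β hβ (by rw [hw00]; exact zero_le)
  -- uniqueness of extensions of `w`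
  have huniq : ∀ δ < ω_ 2, β ≤ δ → ∀ u ∈ L, ∀ v ∈ L, D.ht u = δ → D.ht v = δ → D.res u β = w →
      D.res v β = w → u = v := by
    intro δ
    induction δ using WellFoundedLT.induction with
    | ind δ ih =>
      intro hδ hβδ u hu v hv hu1 hv1 hu2 hv2
      by_contra huv
      have : δ ∈ Sp := by
        refine ⟨hδ, u, hu, v, hv, hu1, hv1, huv, fun γ hγ => ?_⟩
        rcases le_total γ β with h | h
        · rw [← D.res_res u γ β h (hu1 ▸ hβδ), ← D.res_res v γ β h (hv1 ▸ hβδ), hu2, hv2]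
        · have h1 : γ ≤ D.ht u := hu1 ▸ hγ.le
          have h2 : γ ≤ D.ht v := hv1 ▸ hγ.le
          apply ih γ hγ (hγ.trans hδ) h _ (hres u hu γ h1) _ (hres v hv γ h2) (D.ht_res _ _ h1)
            (D.ht_res _ _ h2)
          · rw [D.res_res u β γ h h1, hu2]
          · rw [D.res_res v β γ h h2, hv2]
      exact absurd (hβb δ this) (not_lt.2 hβδ)
  have hex : ∀ δ : Ordinal.{u}, ∃ w', δ < ω_ 2 →
      w' ∈ L ∧ D.ht w' = max β δ ∧ D.res w' β = w := by
    intro δ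
    by_cases hδ : δ < ω_ 2
    · obtain ⟨w', h1, h2, h3⟩ := hext w hw (max β δ) (max_lt hβ hδ) (hwβ ▸ le_max_left _ _)
      rw [hwβ] at h3
      exact ⟨w', fun _ => ⟨h1, h2, h3⟩⟩
    · exact ⟨w, fun h => absurd h hδ⟩
  choose e he using hex
  refine ⟨fun δ => D.res (e δ) δ, fun α hα => D.ht_res _ _ ?_, fun α γ hαγ hγ => ?_⟩
  · rw [(he α hα).2.1]
    exact le_max_right _ _
  · obtain ⟨h1, h2, h3⟩ := he γ hγ
    obtain ⟨h4, h5, h6⟩ := he α (hαγ.trans_lt hγ)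
    have hle : max β α ≤ D.ht (e γ) := h2 ▸ max_le_max le_rfl hαγ
    have : D.res (e γ) (max β α) = e α := by
      apply huniq (max β α) (max_lt hβ (hαγ.trans_lt hγ)) (le_max_left _ _) _
        (hres _ h1 _ hle) _ h4 (D.ht_res _ _ hle) h5 _ h6
      rw [D.res_res _ _ _ (le_max_left _ _) hle, h3]
    change D.res (D.res (e γ) γ) α = D.res (e α) α
    rw [D.res_res _ _ _ hαγ (h2 ▸ le_max_right _ _), ← this,
      D.res_res _ _ _ (le_max_right _ _) hle]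

/-- Kurepa's lemma along an unbounded set of levels. -/
lemma branch_of_countable_levels (X : Set Ordinal.{u}) (hX : ∀ a ∈ X, a < ω_ 2)
    (hXu : ∀ β < ω_ 2, ∃ a ∈ X, β ≤ a) (L : Set T)
    (hne : ∀ a ∈ X, ∃ u ∈ L, D.ht u = a)
    (hc : ∀ a ∈ X, {u ∈ L | D.ht u = a}.Countable)
    (hres : ∀ u ∈ L, ∀ a ∈ X, a ≤ D.ht u → D.res u a ∈ L) : D.Branch := by
  let L' : Set T := {w | ∀ β < ω_ 2, ∃ u ∈ L, D.ht u ∈ X ∧ β ≤ D.ht u ∧ D.ht w ≤ D.ht u ∧
    D.res u (D.ht w) = w}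
  have key : ∀ δ < ω_ 2, ∀ p : T → Prop,
      (∀ β < ω_ 2, ∃ u ∈ L, D.ht u ∈ X ∧ β ≤ D.ht u ∧ (δ ≤ D.ht u → p (D.res u δ))) →
      ∃ q ∈ L', D.ht q = δ ∧ p q := by
    intro δ hδ p hp
    by_contra hcon
    obtain ⟨a, haX, hδa⟩ := hXu δ hδ
    have h1 : ∀ u0 : T, ∃ β < ω_ 2, D.ht u0 = a → p (D.res u0 δ) →
        ∀ u ∈ L, D.ht u ∈ X → β ≤ D.ht u → δ ≤ D.ht u → D.res u δ ≠ D.res u0 δ := by
      intro u0
      by_cases h : D.ht u0 = a ∧ p (D.res u0 δ)
      · have hht : D.ht (D.res u0 δ) = δ := D.ht_res _ _ (h.1 ▸ hδa)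
        have : D.res u0 δ ∉ L' := fun hL => hcon ⟨_, hL, hht, h.2⟩
        simp only [L', mem_ofPred_eq, not_forall, not_exists, not_and, hht] at this
        obtain ⟨β, hβ, hh⟩ := this
        exact ⟨β, hβ, fun _ _ => hh⟩
      · exact ⟨0, omega_two_pos, fun h1 h2 => absurd ⟨h1, h2⟩ h⟩
    choose bd hbd1 hbd2 using h1
    obtain ⟨β, hβ, hβb⟩ := bdd2c (s := insert a (bd '' {u ∈ L | D.ht u = a}))
      (((hc a haX).image bd).insert a) (by
        rintro _ (rfl | ⟨u, -, rfl⟩)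
        · exact hX _ haX
        · exact hbd1 u)
    obtain ⟨u, hu, huX, hβu, hpu⟩ := hp β hβ
    have hau : a ≤ D.ht u := (hβb a (mem_insert _ _)).le.trans hβu
    have hδu : δ ≤ D.ht u := hδa.trans hau
    have hht : D.ht (D.res u a) = a := D.ht_res _ _ hau
    have hrr : D.res (D.res u a) δ = D.res u δ := D.res_res _ _ _ hδa hau
    refine hbd2 (D.res u a) hht (hrr ▸ hpu hδu) u hu huX ?_ hδu hrr.symm
    exact (hβb _ (mem_insert_of_mem _ ⟨_, ⟨hres u hu a haX hau, hht⟩, rfl⟩)).le.trans hβu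
  apply D.branch_of_normal L'
  · obtain ⟨q, hq, hq0, -⟩ := key 0 omega_two_pos (fun _ => True) (fun β hβ => by
      obtain ⟨a, haX, hβa⟩ := hXu β hβ
      obtain ⟨u, hu, hua⟩ := hne a haX
      exact ⟨u, hu, hua ▸ haX, hua ▸ hβa, fun _ => trivial⟩)
    exact ⟨q, hq, hq0⟩
  · intro γ hγ
    obtain ⟨a, haX, hγa⟩ := hXu γ hγ
    refine ((hc a haX).image fun u => D.res u γ).mono ?_
    rintro w ⟨hw, hwγ⟩
    obtain ⟨u, hu, -, hau, -, huw⟩ := hw a (hX a haX)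
    refine ⟨D.res u a, ⟨hres u hu a haX hau, D.ht_res _ _ hau⟩, ?_⟩
    change D.res (D.res u a) γ = w
    rw [D.res_res _ _ _ hγa hau, ← hwγ, huw]
  · intro w hw γ hγ β hβ
    obtain ⟨u, hu, huX, hβu, hwu, huw⟩ := hw β hβ
    rw [D.ht_res _ _ hγ]
    refine ⟨u, hu, huX, hβu, hγ.trans hwu, ?_⟩
    rw [← D.res_res u γ (D.ht w) hγ hwu, huw]
  · intro w hw δ hδ hwδ
    exact key δ hδ (fun q => D.res q (D.ht w) = w) (fun β hβ => by
      obtain ⟨u, hu, huX, hβu, hwu, huw⟩ := hw β hβ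
      refine ⟨u, hu, huX, hβu, fun hδu => ?_⟩
      rw [D.res_res _ _ _ hwδ hδu, huw])

lemma countable_small {ξ : Ordinal.{u}} (hξ : ξ < ω_ 1) (a : Ordinal.{u}) :
    {u | D.ht u = a ∧ D.idx u < ξ}.Countable := by
  refine MapsTo.countable_of_injOn (f := D.idx) (t := Iio ξ) (fun u hu => hu.2) ?_
    (countable_Iio_of_lt hξ)
  intro s hs t ht hst
  exact D.idx_inj s t (hs.1.trans ht.1.symm) hst

/-- `ι`-indexed families from every unbounded set which no node threads. -/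
def Unthreadable (ι : Type) : Prop :=
  ∀ ξ < ω_ 1, ∀ X : Set Ordinal.{u}, (∀ a ∈ X, a < ω_ 2) → (∀ β < ω_ 2, ∃ a ∈ X, β ≤ a) →
    ∃ a : ι → Ordinal.{u}, (∀ i, a i ∈ X) ∧
      ∀ t, (∀ i, a i ≤ D.ht t) → ∃ i, ξ ≤ D.idx (D.res t (a i))

lemma unthreadable_nat (h : ¬ D.Branch) : D.Unthreadable ℕ := by
  intro ξ hξ X hX hXu
  by_contra hcon
  push Not at hcon
  apply h
  apply D.branch_of_countable_levels X hX hXu
    {u | ∀ b ∈ X, b ≤ D.ht u → D.idx (D.res u b) < ξ}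
  · intro a ha
    by_contra hno
    push Not at hno
    have h1 : ∀ u, ∃ b ∈ X, D.ht u = a → b ≤ a ∧ ξ ≤ D.idx (D.res u b) := by
      intro u
      by_cases hu : D.ht u = a
      · by_contra h2
        push Not at h2
        exact hno u (fun b hb hbu => (h2 b hb).2 (hu ▸ hbu)) hu
      · exact ⟨a, ha, fun h => absurd h hu⟩
    choose bd hbd1 hbd2 using h1
    obtain ⟨t0, ht0, ht0'⟩ := hcon (fun _ => a) (fun _ => ha)
    obtain ⟨d, hd⟩ := (D.countable_small hξ a).exists_eq_range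
      ⟨D.res t0 a, D.ht_res _ _ (ht0 0), ht0' 0⟩
    obtain ⟨t, ht, ht'⟩ := hcon (fun n => Nat.casesOn n a fun m => bd (d m)) (fun n => by
      cases n with
      | zero => exact ha
      | succ m => exact hbd1 _)
    have hat : a ≤ D.ht t := ht 0
    have hmem : D.res t a ∈ range d := by
      rw [← hd]
      exact ⟨D.ht_res _ _ hat, ht' 0⟩
    obtain ⟨m, hm⟩ := hmem
    obtain ⟨h3, h4⟩ := hbd2 (d m) (hm ▸ D.ht_res _ _ hat)
    have h5 : D.idx (D.res t (bd (d m))) < ξ := ht' (m + 1)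
    rw [← D.res_res t _ a h3 hat, ← hm] at h5
    exact absurd h4 (not_le.2 h5)
  · intro a ha
    refine (D.countable_small hξ a).mono ?_
    rintro u ⟨hu, hua⟩
    refine ⟨hua, ?_⟩
    have := hu a ha hua.ge
    rwa [D.res_self hua] at this
  · intro u hu a ha hau b hb hba
    rw [D.ht_res _ _ hau] at hba
    rw [D.res_res _ _ _ hba hau]
    exact hu b hb (hba.trans hau)

/-- An ascending path of width `ω`. -/
def Ascending : Prop :=
  ∃ v : Ordinal.{u} → ℕ → T, (∀ α < ω_ 2, ∀ n, D.ht (v α n) = α) ∧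
    ∀ η δ, η ≤ δ → δ < ω_ 2 → ∃ m n, D.res (v δ n) η = v η m

lemma unthreadable_bool (h : ¬ D.Ascending) : D.Unthreadable Bool := by
  intro ξ hξ X hX hXu
  by_contra hcon
  push Not at hcon
  apply h
  have h1 : ∀ γ : Ordinal.{u}, ∃ a ∈ X, ∃ d : ℕ → T, (γ < ω_ 2 → γ ≤ a) ∧
      {u | D.ht u = a ∧ D.idx u < ξ} = range d := by
    intro γ
    have : ∃ a ∈ X, γ < ω_ 2 → γ ≤ a := by
      by_cases hγ : γ < ω_ 2
      · obtain ⟨a, ha, hγa⟩ := hXu γ hγ
        exact ⟨a, ha, fun _ => hγa⟩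
      · obtain ⟨a, ha, -⟩ := hXu 0 omega_two_pos
        exact ⟨a, ha, fun h => absurd h hγ⟩
    obtain ⟨a, ha, hγa⟩ := this
    obtain ⟨t0, ht0, ht0'⟩ := hcon (fun _ => a) (fun _ => ha)
    obtain ⟨d, hd⟩ := (D.countable_small hξ a).exists_eq_range
      ⟨D.res t0 a, D.ht_res _ _ (ht0 true), ht0' true⟩
    exact ⟨a, ha, d, hγa, hd⟩
  choose nx hnx d hle hd using h1
  have hht : ∀ γ n, D.ht (d γ n) = nx γ := by
    intro γ n
    have : d γ n ∈ range (d γ) := mem_range_self n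
    rw [← hd] at this
    exact this.1
  refine ⟨fun γ n => D.res (d γ n) γ, fun α hα n => D.ht_res _ _ (hht α n ▸ hle α hα),
    fun η δ hηδ hδ => ?_⟩
  obtain ⟨t, ht, ht'⟩ := hcon (fun i => cond i (nx η) (nx δ)) (fun i => by cases i <;> exact hnx _)
  have h2 : nx η ≤ D.ht t := ht true
  have h3 : nx δ ≤ D.ht t := ht false
  have h4 : D.res t (nx η) ∈ range (d η) := by
    rw [← hd]
    exact ⟨D.ht_res _ _ h2, ht' true⟩
  have h5 : D.res t (nx δ) ∈ range (d δ) := by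
    rw [← hd]
    exact ⟨D.ht_res _ _ h3, ht' false⟩
  obtain ⟨m, hm⟩ := h4
  obtain ⟨n, hn⟩ := h5
  refine ⟨m, n, ?_⟩
  change D.res (D.res (d δ n) δ) η = D.res (d η m) η
  rw [hm, hn, D.res_res t δ _ (hle δ hδ) h3, D.res_res t η δ hηδ ((hle δ hδ).trans h3),
    D.res_res t η _ (hle η (hηδ.trans_lt hδ)) h2]

end TreeData

end Pool.Agent.MP_635355_lc

end

-- part MP_635355_lc.Main
section

/-!
The non-reflecting stationary set attached to an `ω_2`-tree without cofinal branch.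
-/

namespace Pool.Agent.MP_635355_lc

open Cardinal Ordinal Set

universe u

namespace TreeData

variable {T : Type u} (D : TreeData T)

/-- The indices of the predecessors of `t` on the levels in `x` belong to `x`. -/
def Internal (t : T) (x : Set Ordinal.{u}) : Prop := ∀ a ∈ x, D.idx (D.res t a) ∈ x

/-- The closure operation. -/
def Psi (g : Ordinal.{u} → Ordinal.{u} → Ordinal.{u}) (v : Ordinal.{u} → ℕ → T)
    (a b : Ordinal.{u}) : Set Ordinal.{u} :=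
  {c | a < ω_ 1 ∧ c < a} ∪ {g a b} ∪ range fun n => D.idx (D.res (v a n) b)

/-- The stationary set. -/
def SS (g : Ordinal.{u} → Ordinal.{u} → Ordinal.{u}) (v : Ordinal.{u} → ℕ → T) (E : Set T) :
    Set (Set Ordinal.{u}) :=
  {x | (x ⊆ Iio (ω_ 2) ∧ x.Countable) ∧ Closed (D.Psi g v) x ∧
    ∀ t ∈ E, D.ht t = sSup x → ¬ D.Internal t x}

lemma not_reflect {g : Ordinal.{u} → Ordinal.{u} → Ordinal.{u}} (hg1 : ∀ a b, g a b < ω_ 1)
    (hg2 : ∀ a < ω_ 2, InjOn (g a) (Iio a)) {v : Ordinal.{u} → ℕ → T}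
    (hv : ∀ α < ω_ 2, ∀ n, D.ht (v α n) = α) {E : Set T}
    (hE : ∀ η δ, η ≤ δ → δ < ω_ 2 → ∃ n, D.res (v δ n) η ∈ E)
    {W : Set Ordinal.{u}} (hW : W ⊆ Iio (ω_ 2)) (hWc : #W = ℵ_ 1) :
    ¬ IsStationaryIn W {x ∈ D.SS g v E | x ⊆ W} := by
  intro hst
  -- the final contradiction
  have fin : ∀ x ∈ D.SS g v E, ∀ δ < ω_ 2, (∀ a ∈ x, a ≤ δ) →
      (∀ a ∈ x, ∀ n, D.idx (D.res (v δ n) a) ∈ x) → False := by
    intro x hx δ hδ hb hin
    have hsup : sSup x ≤ δ := csSup_le' hb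
    obtain ⟨n, hn⟩ := hE (sSup x) δ hsup hδ
    have hle : sSup x ≤ D.ht (v δ n) := (hv δ hδ n).symm ▸ hsup
    refine hx.2.2 _ hn (D.ht_res _ _ hle) fun a ha => ?_
    rw [D.res_res _ _ _ (le_csSup ⟨δ, hb⟩ ha) hle]
    exact hin a ha n
  have hsup : ∀ z ⊆ W, z.Countable → ∃ x ∈ D.SS g v E, z ⊆ x ∧ x ⊆ W := by
    intro z hz hzc
    obtain ⟨x, hx1, hx2⟩ := hst.2 _ (isClubIn_superset hz hzc)
    exact ⟨x, hx1.1, hx2.2.2, hx1.2⟩
  have hcl : Closed (D.Psi g v) W := by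
    intro a ha b hb
    obtain ⟨x, hx, hz, hxW⟩ := hsup {a, b} (insert_subset ha (singleton_subset_iff.2 hb))
      (toFinite _).countable
    exact (hx.2.1 a (hz (by simp)) b (hz (by simp))).trans hxW
  by_cases hcase : Iio (ω_ 1) ⊆ W
  · obtain ⟨δ, hδ, hδb⟩ := bdd2 hWc.le hW
    have hclub := (isClubIn_univ (A := W)).inter_closed
      (Ψ := fun a _ => range fun n => D.idx (D.res (v δ n) a)) (fun a _ b _ => ⟨by
        rintro _ ⟨n, rfl⟩
        exact hcase (D.idx_lt _), countable_range _⟩)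
    obtain ⟨x, hx1, hx2⟩ := hst.2 _ hclub
    exact fin x hx1.1 δ hδ (fun a ha => (hδb a (hx1.2 ha)).le)
      (fun a ha n => hx2.2 a ha a ha (mem_range_self n))
  · obtain ⟨ζ, hζ, hζW⟩ := not_subset.1 hcase
    have hbd : ∀ a ∈ W, a < ω_ 1 → a < ζ := by
      intro a ha ha1
      by_contra hle
      rcases (not_lt.1 hle).eq_or_lt with h | h
      · exact hζW (h ▸ ha)
      · exact hζW (hcl a ha a ha (Or.inl (Or.inl ⟨ha1, h⟩)))
    have hzc : (W ∩ Iio (ω_ 1)).Countable :=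
      (countable_Iio_of_lt hζ).mono fun a ha => hbd a ha.1 ha.2
    have hinit : ∀ a ∈ W, (W ∩ Iio a).Countable := by
      intro a ha
      refine MapsTo.countable_of_injOn (f := g a) (t := W ∩ Iio (ω_ 1)) (fun b hb => ?_)
        ((hg2 a (hW ha)).mono inter_subset_right) hzc
      exact ⟨hcl a ha b hb.1 (Or.inl (Or.inr rfl)), hg1 a b⟩
    obtain ⟨x, hx, hz, hxW⟩ := hsup _ inter_subset_left hzc
    have : ∃ γ ∈ W, ∀ a ∈ x, a ≤ γ := by
      by_contra hcon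
      push Not at hcon
      have : W.Countable := (hx.1.2.biUnion fun a ha => hinit a (hxW ha)).mono fun γ hγ => by
        obtain ⟨a, ha, hγa⟩ := hcon γ hγ
        exact mem_iUnion₂.2 ⟨a, ha, hγ, hγa⟩
      rw [countable_iff_lt_aleph_one, hWc] at this
      exact lt_irrefl _ this
    obtain ⟨γ, hγ, hγb⟩ := this
    refine fin x hx γ (hW hγ) hγb fun a ha n => hz ⟨?_, D.idx_lt _⟩
    exact hcl γ hγ a (hxW ha) (Or.inr (mem_range_self n))

/-- The main construction: a countably branching tree of members of a club, whose branches have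
a common supremum, and such that every node of that level is avoided at every step. -/
lemma construction {ι : Type} [Countable ι] [Nonempty ι] (hι : D.Unthreadable ι)
    {C : Set (Set Ordinal.{u})} (hC : IsClubIn (Iio (ω_ 2)) C) :
    ∃ η < ω_ 2, ∃ (y0 : Set Ordinal.{u}) (nx : ℕ → Set Ordinal.{u} → ι → Set Ordinal.{u}),
      ∀ (p : ℕ → Set Ordinal.{u}) (r : ℕ → ι), p 0 = y0 → (∀ n, p (n + 1) = nx n (p n) (r n)) →
        (⋃ n, p n) ∈ C ∧ sSup (⋃ n, p n) = η ∧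
        ∀ n, ∀ t, D.ht t = η → ∃ i, ∀ (q : ℕ → Set Ordinal.{u}) (s : ℕ → ι), q 0 = y0 →
          (∀ n, q (n + 1) = nx n (q n) (s n)) → q n = p n → s n = i →
            ¬ D.Internal t (⋃ n, q n) := by
  classical
  obtain ⟨ξ, hξ, G, hGC, ⟨y0, hy0⟩, hGξ, hGext⟩ := exists_good hC
  have step : ∀ (y : Set Ordinal.{u}) (β : Ordinal.{u}),
      ∃ (a : ι → Ordinal.{u}) (z : ι → Set Ordinal.{u}), y ∈ G → β < ω_ 2 →
        (∀ i, β ≤ a i ∧ z i ∈ G ∧ y ⊆ z i ∧ a i ∈ z i) ∧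
        ∀ t, (∀ i, a i ≤ D.ht t) → ∃ i, ξ ≤ D.idx (D.res t (a i)) := by
    intro y β
    by_cases h : y ∈ G ∧ β < ω_ 2
    · obtain ⟨a, ha, hat⟩ := hι ξ hξ {a | β ≤ a ∧ ∃ y' ∈ G, y ⊆ y' ∧ a ∈ y'}
        (fun a ⟨_, y', hy', _, ha⟩ => (hC.1 y' (hGC hy')).1 ha)
        (fun γ hγ => by
          obtain ⟨y', hy', hsub, a, ha, hle⟩ := hGext y h.1 (max β γ) (max_lt h.2 hγ)
          exact ⟨a, ⟨(le_max_left _ _).trans hle, y', hy', hsub, ha⟩, (le_max_right _ _).trans hle⟩)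
      choose z hz using fun i => (ha i).2
      exact ⟨a, z, fun _ _ => ⟨fun i => ⟨(ha i).1, hz i⟩, hat⟩⟩
    · exact ⟨fun _ => 0, fun _ => ∅, fun h1 h2 => absurd ⟨h1, h2⟩ h⟩
  choose a z hstep using step
  -- states
  let St := {s : Set (Set Ordinal.{u}) × Ordinal.{u} // s.1.Countable ∧ s.1 ⊆ G ∧ s.2 < ω_ 2}
  have step2 : ∀ s : St, ∃ s' : St, s.1.2 < s'.1.2 ∧ (∀ y ∈ s.1.1, ∀ i, z y s.1.2 i ∈ s'.1.1) ∧
      ∀ y ∈ s'.1.1, ∀ c ∈ y, c < s'.1.2 := by
    rintro ⟨⟨Z, β⟩, hZc, hZG, hβ⟩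
    have hZ'c : (⋃ y ∈ Z, range (z y β)).Countable := hZc.biUnion fun y _ => countable_range _
    have hZ'G : (⋃ y ∈ Z, range (z y β)) ⊆ G := by
      refine iUnion₂_subset fun y hy => ?_
      rintro _ ⟨i, rfl⟩
      exact ((hstep y β (hZG hy) hβ).1 i).2.1
    obtain ⟨β', hβ', hb⟩ := bdd2c (s := insert β (⋃₀ (⋃ y ∈ Z, range (z y β))))
      ((hZ'c.sUnion fun y hy => (hC.1 y (hGC (hZ'G hy))).2).insert β) (by
        rintro c (rfl | ⟨y, hy, hc⟩)
        · exact hβ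
        · exact (hC.1 y (hGC (hZ'G hy))).1 hc)
    exact ⟨⟨(⋃ y ∈ Z, range (z y β), β'), hZ'c, hZ'G, hβ'⟩, hb β (mem_insert _ _),
      fun y hy i => mem_iUnion₂.2 ⟨y, hy, mem_range_self i⟩,
      fun y hy c hc => hb c (mem_insert_of_mem _ ⟨y, hy, hc⟩)⟩
  choose ns hns1 hns2 hns3 using step2
  let f : ℕ → St := fun n =>
    ns^[n] ⟨({y0}, 0), countable_singleton _, singleton_subset_iff.2 hy0, omega_two_pos⟩
  have hf : ∀ n, f (n + 1) = ns (f n) := fun n => Function.iterate_succ_apply' _ _ _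
  obtain ⟨β, hβ, hβb⟩ := bdd2c (s := range fun n => (f n).1.2) (countable_range _) (by
    rintro _ ⟨n, rfl⟩
    exact (f n).2.2.2)
  have hbdd : BddAbove (range fun n => (f n).1.2) := ⟨β, fun c hc => (hβb c hc).le⟩
  let η : Ordinal.{u} := sSup (range fun n => (f n).1.2)
  have hηle : ∀ n, (f n).1.2 ≤ η := fun n => le_csSup hbdd (mem_range_self n)
  have hpath : ∀ (p : ℕ → Set Ordinal.{u}) (r : ℕ → ι), p 0 = y0 →
      (∀ n, p (n + 1) = z (p n) (f n).1.2 (r n)) → ∀ n, p n ∈ (f n).1.1 := by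
    intro p r h0 hs n
    induction n with
    | zero => exact h0
    | succ n ih =>
      rw [hs, hf]
      exact hns2 _ _ ih _
  refine ⟨η, (csSup_le' fun c hc => (hβb c hc).le).trans_lt hβ, y0,
    fun n y i => z y (f n).1.2 i, fun p r h0 hs => ?_⟩
  have hp := hpath p r h0 hs
  have hst := fun n => hstep (p n) (f n).1.2 ((f n).2.2.1 (hp n)) (f n).2.2.2
  have hmono : Monotone p := monotone_nat_of_le_succ fun n => by
    rw [hs]
    exact ((hst n).1 (r n)).2.2.1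
  have hlt : ∀ n, ∀ y ∈ (f (n + 1)).1.1, ∀ c ∈ y, c ≤ η := by
    intro n y hy c hc
    refine le_trans ?_ (hηle (n + 1))
    rw [hf] at hy ⊢
    exact (hns3 _ y hy c hc).le
  refine ⟨hC.2.1 p hmono fun n => hGC ((f n).2.2.1 (hp n)), ?_, fun n t ht => ?_⟩
  · have hub : ∀ c ∈ ⋃ n, p n, c ≤ η := by
      intro c hc
      obtain ⟨n, hn⟩ := mem_iUnion.1 hc
      exact hlt n _ (hp (n + 1)) c (hmono (Nat.le_succ n) hn)
    refine le_antisymm (csSup_le' hub) (csSup_le' ?_)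
    rintro _ ⟨n, rfl⟩
    obtain ⟨h1, -, -, h4⟩ := (hst n).1 (r n)
    refine h1.trans (le_csSup ⟨η, hub⟩ (mem_iUnion.2 ⟨n + 1, ?_⟩))
    rw [hs]
    exact h4
  · obtain ⟨i, hi⟩ := (hst n).2 t (fun i => by
      rw [ht]
      refine hlt n (z (p n) (f n).1.2 i) ?_ _ ((hst n).1 i).2.2.2
      rw [hf]
      exact hns2 _ _ (hp n) _)
    refine ⟨i, fun q s hq0 hqs hqn hsn hint => ?_⟩
    have hmem : a (p n) (f n).1.2 i ∈ ⋃ n, q n := by
      refine mem_iUnion.2 ⟨n + 1, ?_⟩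
      rw [hqs, hqn, hsn]
      exact ((hst n).1 i).2.2.2
    obtain ⟨m, hm⟩ := mem_iUnion.1 (hint _ hmem)
    exact absurd (hGξ _ ((f m).2.2.1 (hpath q s hq0 hqs m)) _ hm (D.idx_lt _)) (not_lt.2 hi)

lemma psi_sub (g : Ordinal.{u} → Ordinal.{u} → Ordinal.{u}) (hg1 : ∀ a b, g a b < ω_ 1)
    (v : Ordinal.{u} → ℕ → T) (a b : Ordinal.{u}) :
    D.Psi g v a b ⊆ Iio (ω_ 2) ∧ (D.Psi g v a b).Countable := by
  constructor
  · rintro c ((⟨h1, h2⟩ | rfl) | ⟨n, rfl⟩)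
    · exact (h2.trans h1).trans omega_one_lt_omega_two
    · exact (hg1 a b).trans omega_one_lt_omega_two
    · exact (D.idx_lt _).trans omega_one_lt_omega_two
  · refine Countable.union (Countable.union ?_ (countable_singleton _)) (countable_range _)
    by_cases h : a < ω_ 1
    · exact (countable_Iio_of_lt h).mono fun c hc => hc.2
    · simp [h]

theorem branch (hCH : (2 : Cardinal.{u}) ^ ℵ₀ ≠ ℵ_ 1) (hR : Reflection.{u}) : D.Branch := by
  classical
  by_contra hnb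
  obtain ⟨g, hg1, hg2⟩ := exists_ginj.{u}
  suffices h : ∃ (v : Ordinal.{u} → ℕ → T) (E : Set T), (∀ α < ω_ 2, ∀ n, D.ht (v α n) = α) ∧
      (∀ η δ, η ≤ δ → δ < ω_ 2 → ∃ n, D.res (v δ n) η ∈ E) ∧
      ∀ C, IsClubIn (Iio (ω_ 2)) C → ∃ x ∈ C, ∀ t ∈ E, D.ht t = sSup x → ¬ D.Internal t x by
    obtain ⟨v, E, hv, hE, hS⟩ := h
    obtain ⟨W, hW, hWc, hst⟩ := hR (D.SS g v E) ⟨fun x hx => hx.1, fun C hC => by
      obtain ⟨x, hx, hx'⟩ := hS _ (hC.inter_closed fun a _ b _ => D.psi_sub g hg1 v a b)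
      exact ⟨x, ⟨hC.1 x hx.1, hx.2, hx'⟩, hx.1⟩⟩
    exact D.not_reflect hg1 hg2 hv hE hW hWc hst
  by_cases hA : D.Ascending
  · obtain ⟨v, hv, hasc⟩ := hA
    refine ⟨v, {t | ∃ m, t = v (D.ht t) m}, hv, fun η δ hηδ hδ => ?_, fun C hC => ?_⟩
    · obtain ⟨m, n, h⟩ := hasc η δ hηδ hδ
      refine ⟨n, m, ?_⟩
      rw [h, hv η (hηδ.trans_lt hδ)]
    · obtain ⟨η, hη, y0, nx, hcons⟩ := D.construction (D.unthreadable_nat hnb) hC
      -- choose, for every position, an index avoiding the `n`-th node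
      have hk : ∀ (n : ℕ) (y : Set Ordinal.{u}), ∃ i : ℕ,
          (∃ (p : ℕ → Set Ordinal.{u}) (r : ℕ → ℕ), p 0 = y0 ∧
            (∀ n, p (n + 1) = nx n (p n) (r n)) ∧ p n = y) →
          ∀ (q : ℕ → Set Ordinal.{u}) (s : ℕ → ℕ), q 0 = y0 →
            (∀ n, q (n + 1) = nx n (q n) (s n)) → q n = y → s n = i →
              ¬ D.Internal (v η n) (⋃ n, q n) := by
        intro n y
        by_cases h : ∃ (p : ℕ → Set Ordinal.{u}) (r : ℕ → ℕ), p 0 = y0 ∧
            (∀ n, p (n + 1) = nx n (p n) (r n)) ∧ p n = y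
        · obtain ⟨p, r, h0, hs, rfl⟩ := h
          obtain ⟨i, hi⟩ := (hcons p r h0 hs).2.2 n (v η n) (hv η hη n)
          exact ⟨i, fun _ => hi⟩
        · exact ⟨0, fun h' => absurd h' h⟩
      choose k hk using hk
      let p : ℕ → Set Ordinal.{u} := fun n => Nat.rec y0 (fun n y => nx n y (k n y)) n
      have h0 : p 0 = y0 := rfl
      have hs : ∀ n, p (n + 1) = nx n (p n) (k n (p n)) := fun n => rfl
      obtain ⟨h1, h2, -⟩ := hcons p (fun n => k n (p n)) h0 hs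
      refine ⟨_, h1, ?_⟩
      rintro t ⟨m, hm⟩ ht
      rw [hm, ht, h2]
      exact hk m (p m) ⟨p, _, h0, hs, rfl⟩ p _ h0 hs rfl rfl
  · have hlev : ∀ α : Ordinal.{u}, ∃ t, α < ω_ 2 → D.ht t = α := by
      intro α
      by_cases hα : α < ω_ 2
      · obtain ⟨t, ht⟩ := D.level_nonempty α hα
        exact ⟨t, fun _ => ht⟩
      · obtain ⟨t, -⟩ := D.level_nonempty 0 omega_two_pos
        exact ⟨t, fun h => absurd h hα⟩
    choose w hw using hlev
    refine ⟨fun α _ => w α, univ, fun α hα _ => hw α hα, fun _ _ _ _ => ⟨0, trivial⟩,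
      fun C hC => ?_⟩
    obtain ⟨η, hη, y0, nx, hcons⟩ := D.construction (D.unthreadable_bool hA) hC
    let p : (ℕ → Bool) → ℕ → Set Ordinal.{u} :=
      fun r n => Nat.rec y0 (fun n y => nx n y (r n)) n
    have h0 : ∀ r, p r 0 = y0 := fun _ => rfl
    have hs : ∀ r n, p r (n + 1) = nx n (p r n) (r n) := fun _ _ => rfl
    by_contra hcon
    have h1 : ∀ r, ∃ t, D.ht t = η ∧ D.Internal t (⋃ n, p r n) := by
      intro r
      obtain ⟨h1, h2, -⟩ := hcons (p r) r (h0 r) (hs r)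
      by_contra h3
      exact hcon ⟨_, h1, fun t _ ht hint => h3 ⟨t, ht.trans h2, hint⟩⟩
    choose t ht1 ht2 using h1
    have hinj : Function.Injective fun r => (⟨D.idx (t r), D.idx_lt _⟩ : Iio (ω_ 1)) := by
      intro r r' hrr
      have htt : t r = t r' :=
        D.idx_inj _ _ ((ht1 r).trans (ht1 r').symm) (congrArg Subtype.val hrr)
      have key : ∀ n, p r' n = p r n → r' n = r n := by
        intro n hn
        obtain ⟨i, hi⟩ := (hcons (p r) r (h0 r) (hs r)).2.2 n (t r) (ht1 r)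
        have h2 : r n ≠ i := fun h => hi (p r) r (h0 r) (hs r) rfl h (ht2 r)
        have h3 : r' n ≠ i := fun h => hi (p r') r' (h0 r') (hs r') hn h (htt ▸ ht2 r')
        revert h2 h3
        cases r n <;> cases r' n <;> cases i <;> simp
      have key2 : ∀ n, p r' n = p r n := by
        intro n
        induction n with
        | zero => rfl
        | succ n ih => rw [hs, hs, key n ih, ih]
      funext n
      exact (key n (key2 n)).symm
    have hcard := Cardinal.lift_mk_le_lift_mk_of_injective hinj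
    rw [mk_Iio_omega_one] at hcard
    apply hCH
    rw [two_power_aleph0]
    refine le_antisymm ?_ aleph_one_le_continuum
    have h2 : #(ℕ → Bool) = 𝔠 := by simp
    rw [h2, lift_continuum, Cardinal.lift_id', ← lift_continuum.{u + 1, u}, lift_le_aleph_one] at hcard
    exact hcard

end TreeData

end Pool.Agent.MP_635355_lc

end

-- part MP_635355_lc.Bridge
section

/-!
From trees as partial orders to the abstract presentation.
-/

namespace Pool.Agent.MP_635355_lc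

open Cardinal Ordinal Set

universe u

variable {T : Type u} [PartialOrder T] (h : IsTree T)

lemma typein_eq_height {t : T} (s : Iio t) :
    @typein (Iio t) (· < ·) (h t) s = height h s.1 := by
  have := h t
  have := h s.1
  rw [← type_subrel]
  unfold height
  rw [type_eq]
  refine ⟨⟨⟨fun x => ⟨x.1.1, x.2⟩, fun x => ⟨⟨x.1, lt_trans x.2 s.2⟩, x.2⟩, fun _ => rfl,
    fun _ => rfl⟩, Iff.rfl⟩⟩

lemma height_lt {s t : T} (hst : s < t) : height h s < height h t := by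
  have := h t
  rw [← typein_eq_height h (⟨s, hst⟩ : Iio t)]
  exact typein_lt_type _ _

lemma exists_le_height (t : T) {α : Ordinal.{u}} (hα : α ≤ height h t) :
    ∃ s ≤ t, height h s = α := by
  rcases hα.eq_or_lt with rfl | hlt
  · exact ⟨t, le_rfl, rfl⟩
  · have := h t
    obtain ⟨s, hs⟩ := typein_surj (α := Iio t) (· < ·) hlt
    exact ⟨s.1, le_of_lt s.2, by rw [← typein_eq_height h s, hs]⟩

lemma eq_of_height_eq {s s' t : T} (hs : s ≤ t) (hs' : s' ≤ t) (heq : height h s = height h s') :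
    s = s' := by
  rcases hs.eq_or_lt with rfl | hs
  · rcases hs'.eq_or_lt with rfl | hs'
    · rfl
    · exact absurd heq (height_lt h hs').ne'
  · rcases hs'.eq_or_lt with rfl | hs'
    · exact absurd heq (height_lt h hs).ne
    · have := h t
      rw [← typein_eq_height h (⟨s, hs⟩ : Iio t), ← typein_eq_height h (⟨s', hs'⟩ : Iio t)] at heq
      exact congrArg Subtype.val (typein_injective _ heq)

theorem not_isAronszajn (hCH : (2 : Cardinal.{u}) ^ ℵ₀ ≠ ℵ_ 1) (hR : Reflection.{u})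
    (T : Type u) [PartialOrder T] : ¬ IsAronszajn T := by
  rintro ⟨h, hlt, hlev, hcard, hnb⟩
  have h1 : ∀ (t : T) (α : Ordinal.{u}), ∃ s ≤ t, α ≤ height h t → height h s = α := by
    intro t α
    by_cases hα : α ≤ height h t
    · obtain ⟨s, hs, hs'⟩ := exists_le_height h t hα
      exact ⟨s, hs, fun _ => hs'⟩
    · exact ⟨t, le_rfl, fun h' => absurd h' hα⟩
  choose res hres1 hres2 using h1
  have h2 : ∀ α : Ordinal.{u}, ∃ e : T → Ordinal.{u}, (∀ t, e t < ω_ 1) ∧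
      (α < ω_ 2 → InjOn e {t | height h t = α}) := by
    intro α
    by_cases hα : α < ω_ 2
    · obtain ⟨e, he1, he2⟩ := exists_inj_omega_one _ (lt_aleph_two_iff.1 (hcard α hα))
      exact ⟨e, he1, fun _ => he2⟩
    · exact ⟨fun _ => 0, fun _ => omega_one_pos, fun h' => absurd h' hα⟩
  choose e he1 he2 using h2
  let D : TreeData T :=
    { ht := height h
      res := res
      idx := fun t => e (height h t) t
      ht_res := hres2
      res_res := fun t α β hαβ hβ => eq_of_height_eq h ((hres1 _ _).trans (hres1 _ _)) (hres1 _ _)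
        (by rw [hres2 _ _ (by rw [hres2 _ _ hβ]; exact hαβ), hres2 _ _ (hαβ.trans hβ)])
      res_ht := fun t => eq_of_height_eq h (hres1 _ _) le_rfl (hres2 _ _ le_rfl)
      idx_lt := fun t => he1 _ _
      idx_inj := fun s t hst hi => he2 _ (hlt t) hst rfl (by rw [← hi, hst])
      level_nonempty := hlev }
  obtain ⟨b, hb1, hb2⟩ := D.branch hCH hR
  refine hnb ⟨b '' Iio (ω_ 2), ?_, fun α hα => ⟨b α, ⟨α, hα, rfl⟩, hb1 α hα⟩⟩
  rintro _ ⟨α, hα, rfl⟩ _ ⟨β, hβ, rfl⟩ -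
  rcases le_total α β with hab | hab
  · left
    rw [← hb2 α β hab hβ]
    exact hres1 _ _
  · right
    rw [← hb2 β α hab hα]
    exact hres1 _ _

end Pool.Agent.MP_635355_lc

end
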